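import Pool.Agent.Helper46.SP.CoreSpec

/-!
# A06: names of reals
-/

open Cardinal Set
open scoped Pointwise

namespace Pool.Agent.Helper46.SP

variable {Q : Par}

theorem RN_down {S : Set (P0 Q)} (h : IsReg S) {p q : P0 Q} (hp : p ∈ S) (hq : q ≤ p) : q ∈ S :=
  (h q).2 fun q' hq' => (h p).1 hp q' (hq'.trans hq)

theorem RN_res_pos (p : P0 Q) {Z : Set (Idx Q)} {x : Q.Ω × ℕ} (h : ((none, x.1) : Idx Q) ∈ Z) :
    (p.res Z).val x = p.val x := by
  classical
  simp only [P0.res]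
  rw [if_pos h]

theorem RN_res_neg (p : P0 Q) {Z : Set (Idx Q)} {x : Q.Ω × ℕ} (h : ((none, x.1) : Idx Q) ∉ Z) :
    (p.res Z).val x = none := by
  classical
  simp only [P0.res]
  rw [if_neg h]

theorem RN_res_congr (p : P0 Q) (Z W : Set (Idx Q))
    (h : ∀ i : Q.Ω, ((none, i) : Idx Q) ∈ Z ↔ ((none, i) : Idx Q) ∈ W) : p.res Z = p.res W := by
  apply P0.ext
  funext x
  by_cases hx : ((none, x.1) : Idx Q) ∈ Z
  · rw [RN_res_pos p hx, RN_res_pos p ((h x.1).1 hx)]
  · rw [RN_res_neg p hx, RN_res_neg p (fun h' => hx ((h x.1).2 h'))]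

theorem RN_mem_below (ζ : Stg Q) (i : Q.Ω) : ((none, i) : Idx Q) ∈ below ζ := by
  intro ξ hξ
  cases hξ

/-- a condition over `z` below the restriction of `q` is compatible with `q` -/
theorem RN_compat (hP : P0Facts Q) {a q : P0 Q} {z : Set (Idx Q)} (ha : a.res z = a)
    (h : a ≤ q.res z) : ∃ r, r ≤ a ∧ r ≤ q := by
  rw [← hP.compat_iff]
  intro x b b' hb hb'
  have hx : ((none, x.1) : Idx Q) ∈ z := by
    by_contra hx
    rw [← ha, RN_res_neg a hx] at hb
    cases hb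
  have h2 : (q.res z).val x = some b' := by
    rw [RN_res_pos q hx]
    exact hb'
  have h3 := h x b' h2
  rw [hb] at h3
  exact Option.some_injective _ h3

/-- the regular hull -/
def RN_hul (B : Set (P0 Q)) : Set (P0 Q) := {p | ∀ q ≤ p, ∃ r ≤ q, r ∈ B}

theorem RN_hul_reg (B : Set (P0 Q)) : IsReg (RN_hul B) := by
  intro p
  constructor
  · intro h q hq
    exact ⟨q, le_rfl, fun q' hq' => h q' (hq'.trans hq)⟩
  · intro h q hq
    obtain ⟨r, hr, hr'⟩ := h q hq
    obtain ⟨s, hs, hs'⟩ := hr' r le_rfl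
    exact ⟨s, hs.trans hr, hs'⟩

theorem RN_hul_over (hP : P0Facts Q) (B : Set (P0 Q)) (hB : ∀ p ∈ B, ∀ q ≤ p, q ∈ B)
    (z : Set (Idx Q)) (hz : ∀ p ∈ B, p.res z ∈ B) (p : P0 Q) :
    p ∈ RN_hul B ↔ p.res z ∈ RN_hul B := by
  constructor
  · intro h q hq
    have h1 : (q.res z).res z = q.res z := by rw [hP.res_res, inter_self]
    have h2 : q.res z ≤ p.res z := by
      have := hP.res_mono q (p.res z) z hq
      rwa [hP.res_res, inter_self] at this
    obtain ⟨s, hs1, hs2⟩ := RN_compat hP h1 h2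
    obtain ⟨r, hr, hr'⟩ := h s hs2
    have h3 : (r.res z).res z = r.res z := by rw [hP.res_res, inter_self]
    have h4 : r.res z ≤ q.res z := by
      have := hP.res_mono r (q.res z) z (hr.trans hs1)
      rwa [h1] at this
    obtain ⟨t, ht1, ht2⟩ := RN_compat hP h3 h4
    exact ⟨t, ht2, hB _ (hz r hr') t ht1⟩
  · intro h q hq
    exact h q (hq.trans (hP.res_le p z))

theorem RN_over_mono (hP : P0Facts Q) (x : RN Q) (Z W : Set (Idx Q)) (h : x.Over Z) (hZW : Z ⊆ W) :
    x.Over W := by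
  intro n p
  rw [h n p, h n (p.res W), hP.res_res, inter_eq_self_of_subset_right hZW]

theorem RN_count (z : Set (Idx Q)) (hz : z.Countable) :
    {p : P0 Q | p.res z = p}.Countable := by
  have hinj : InjOn (fun p : P0 Q => {y : (Q.Ω × ℕ) × Bool | p.val y.1 = some y.2})
      {p : P0 Q | p.res z = p} := by
    intro p _ q _ hpq
    apply P0.ext
    funext x
    apply Option.ext
    intro b
    have := Set.ext_iff.1 hpq (x, b)
    exact this
  apply Set.countable_of_injective_of_countable_image hinj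
  have hc : {y : (Q.Ω × ℕ) × Bool | ((none, y.1.1) : Idx Q) ∈ z}.Countable := by
    have h1 : {i : Q.Ω | ((none, i) : Idx Q) ∈ z}.Countable :=
      hz.preimage (fun a b h => (Prod.mk.injEq _ _ _ _ ▸ h).2)
    have h2 := (h1.prod (Set.countable_univ (α := ℕ))).prod (Set.countable_univ (α := Bool))
    apply h2.mono
    intro y hy
    exact ⟨⟨hy, mem_univ _⟩, mem_univ _⟩
  apply (Set.countable_ofPred_finite_subset hc).mono
  rintro _ ⟨p, hp, rfl⟩
  refine ⟨?_, ?_⟩
  · have h1 := (p.fin.prod (Set.finite_univ (α := Bool)))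
    apply h1.subset
    intro y hy
    refine ⟨?_, mem_univ _⟩
    show p.val y.1 ≠ none
    have hy' : p.val y.1 = some y.2 := hy
    rw [hy']
    exact Option.some_ne_none _
  · intro y hy
    have hy' : p.val y.1 = some y.2 := hy
    show ((none, y.1.1) : Idx Q) ∈ z
    by_contra hx
    have hp' : p.res z = p := hp
    rw [← hp', RN_res_neg p hx] at hy'
    cases hy'

theorem RN_card_countable (hP : P0Facts Q) (z : Set (Idx Q)) (hz : z.Countable) :
    #{v : RN Q // v.Over z} ≤ 2 ^ (ℵ₀ : Cardinal.{0}) := by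
  have hc := (RN_count z hz).to_subtype
  have h1 : #{v : RN Q // v.Over z} ≤ #(Set (ℕ × {p : P0 Q | p.res z = p})) := by
    apply Cardinal.mk_le_of_injective (f := fun v => {y | (y.2 : P0 Q) ∈ v.1.val y.1})
    intro v w hvw
    apply Subtype.ext
    apply RN.ext
    funext n
    apply Set.ext
    intro p
    rw [v.2 n p, w.2 n p]
    have h1 : (p.res z).res z = p.res z := by rw [hP.res_res, inter_self]
    exact Set.ext_iff.1 hvw (n, ⟨p.res z, h1⟩)
  refine h1.trans ?_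
  rw [Cardinal.mk_set]
  apply Cardinal.power_le_power_left two_ne_zero
  exact Cardinal.mk_le_aleph0

theorem RN_card (hP : P0Facts Q) (Z : Set (Idx Q)) (κ : Cardinal.{0}) (h0 : ℵ₀ ≤ κ)
    (h1 : (2 : Cardinal.{0}) ^ (ℵ₀ : Cardinal.{0}) ≤ κ) (h2 : κ ^ (ℵ₀ : Cardinal.{0}) ≤ κ)
    (hZ : #Z ≤ κ) : #{v : RN Q // v.Over Z} ≤ κ := by
  have hs : Function.Surjective
      (fun y : (Σ z : {z : Set (Idx Q) // z ⊆ Z ∧ #z ≤ ℵ₀}, {v : RN Q // v.Over z.1}) =>
        (⟨y.2.1, RN_over_mono hP _ _ _ y.2.2 y.1.2.1⟩ : {v : RN Q // v.Over Z})) := by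
    rintro ⟨v, hv⟩
    obtain ⟨z, hz, hvz⟩ := v.supp
    have h3 : v.Over (z ∩ Z) := by
      intro n p
      rw [hvz n p, hv n (p.res z), hP.res_res]
    exact ⟨⟨⟨z ∩ Z, inter_subset_right, Cardinal.mk_le_aleph0_iff.2
      (hz.mono inter_subset_left).to_subtype⟩, ⟨v, h3⟩⟩, rfl⟩
  refine (Cardinal.mk_le_of_surjective hs).trans ?_
  rw [Cardinal.mk_sigma]
  have h3 : ∀ z : {z : Set (Idx Q) // z ⊆ Z ∧ #z ≤ ℵ₀}, #{v : RN Q // v.Over z.1} ≤ κ := by
    intro z
    exact (RN_card_countable hP z.1 (Cardinal.le_aleph0_iff_set_countable.1 z.2.2)).trans h1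
  refine (Cardinal.sum_le_sum _ _ h3).trans ?_
  rw [Cardinal.sum_const']
  have h4 : #{z : Set (Idx Q) // z ⊆ Z ∧ #z ≤ ℵ₀} ≤ κ := by
    refine (Cardinal.mk_bounded_subset_le Z ℵ₀).trans ?_
    refine (Cardinal.power_le_power_right (max_le hZ h0)).trans h2
  exact (mul_le_mul' h4 le_rfl).trans (Cardinal.mul_eq_self h0).le

theorem st_RN (hP : ST_P0) : ST_RN := by
  intro Q
  have hP := hP Q
  have hsmem : ∀ (g : Grp Q) (x : RN Q) (n : ℕ) (p : P0 Q),
      p ∈ (g • x).val n ↔ g⁻¹ • p ∈ x.val n := by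
    intro g x n p
    rw [RN.smul_val, Set.mem_smul_set_iff_inv_smul_mem]
  have hres : ∀ (g : Grp Q) (p : P0 Q) (Z : Set (Idx Q)),
      g⁻¹ • p.res (g • Z) = (g⁻¹ • p).res Z := by
    intro g p Z
    have := RN.res_smul g⁻¹ p (g • Z)
    rw [inv_smul_smul] at this
    exact this.symm
  refine
    { refl := fun x p q _ n => Iff.rfl
      symm := fun x y p h q hq n => (h q hq n).symm
      trans := fun x y z p h h' q hq n => (h q hq n).trans (h' q hq n)
      mono := fun x y p q h hqp r hr n => h r (hr.trans hqp) n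
      dense := ?_
      eq_of_top := ?_
      smul := ?_
      over_mono := RN_over_mono hP
      over_inter := ?_
      over_below := ?_
      over_univ := ?_
      over_smul := ?_
      smul_congr := ?_
      mix := ?_
      hull := ?_
      cardK := ?_
      cardκ := ?_ }
  · intro x y p h
    have key : ∀ x y : RN Q, (∀ q ≤ p, ∃ r ≤ q, x.Feq y r) → ∀ q ≤ p, ∀ n, q ∈ x.val n →
        q ∈ y.val n := by
      intro x y h q hq n hx
      rw [y.reg n q]
      intro q' hq'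
      obtain ⟨r, hr, hr'⟩ := h q' (hq'.trans hq)
      exact ⟨r, hr, (hr' r le_rfl n).1 (RN_down (x.reg n) hx (hr.trans hq'))⟩
    intro q hq n
    refine ⟨key x y h q hq n, key y x (fun q hq => ?_) q hq n⟩
    obtain ⟨r, hr, hr'⟩ := h q hq
    exact ⟨r, hr, fun s hs n => (hr' s hs n).symm⟩
  · intro x y h
    apply RN.ext
    funext n
    apply Set.ext
    intro p
    exact h p le_top n
  · intro g x y p h q hq n
    rw [hsmem, hsmem]
    apply h
    have := P0.smul_le g⁻¹ _ _ hq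
    rwa [inv_smul_smul] at this
  · intro x Z W hZ hW n p
    rw [hZ n p, hW n (p.res Z), hP.res_res]
  · intro x Z ζ hZ n p
    rw [hZ n p, RN_res_congr p Z (Z ∩ below ζ) fun i => ⟨fun h => ⟨h, RN_mem_below ζ i⟩, fun h => h.1⟩]
  · intro x
    obtain ⟨z, hz, hx⟩ := x.supp
    refine ⟨z ∩ {i | i.1 = none}, hz.mono inter_subset_left, ?_, ?_⟩
    · rintro ζ i ⟨-, hi⟩ ξ hξ
      have hi' : i.1 = none := hi
      rw [hi'] at hξ
      cases hξ
    · intro n p
      rw [hx n p, RN_res_congr p z (z ∩ {i | i.1 = none}) fun i => ⟨fun h => ⟨h, rfl⟩, fun h => h.1⟩]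
  · intro g x Z h n p
    rw [hsmem, hsmem, h n, hres]
  · intro g h x Z hx hgh
    apply RN.ext
    funext n
    apply Set.ext
    intro p
    rw [hsmem, hsmem, hx n, hx n (h⁻¹ • p)]
    have hZ : g • Z = h • Z := by
      apply Set.ext
      intro i
      constructor
      · rintro ⟨j, hj, rfl⟩
        exact ⟨j, hj, (hgh j hj).symm⟩
      · rintro ⟨j, hj, rfl⟩
        exact ⟨j, hj, hgh j hj⟩
    rw [← hres g p Z, ← hres h p Z, ← hZ]
    have h1 : g⁻¹ • p.res (g • Z) = h⁻¹ • p.res (g • Z) := by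
      apply hP.smul_congr _ _ _ (g • Z)
      · rw [hP.res_res, inter_self]
      · rintro _ ⟨j, hj, rfl⟩
        show g⁻¹ • g • j = h⁻¹ • g • j
        rw [inv_smul_smul, hgh j hj, inv_smul_smul]
    rw [h1]
  · intro A v hA hinc
    choose sa hsa1 _ hsa3 using hP.fin_supp
    choose sv hsv1 hsv2 using fun x : RN Q => x.supp
    set z : Set (Idx Q) := ⋃ a ∈ A, (sa a ∪ sv (v a)) with hz
    have hzc : z.Countable := hA.biUnion fun a _ => (hsa1 a).countable.union (hsv1 (v a))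
    set B : ℕ → Set (P0 Q) := fun n => {r | ∃ a ∈ A, r ≤ a ∧ r ∈ (v a).val n} with hB
    have hBd : ∀ n, ∀ p ∈ B n, ∀ q ≤ p, q ∈ B n := by
      rintro n p ⟨a, ha, hpa, hpv⟩ q hq
      exact ⟨a, ha, hq.trans hpa, RN_down ((v a).reg n) hpv hq⟩
    have hBz : ∀ n, ∀ p ∈ B n, p.res z ∈ B n := by
      rintro n p ⟨a, ha, hpa, hpv⟩
      refine ⟨a, ha, ?_, ?_⟩
      · have h1 : a.res z = a := hP.res_eq_of a (sa a) z (hsa3 a)
          (subset_union_left.trans (subset_biUnion_of_mem (u := fun a => sa a ∪ sv (v a)) ha))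
        have := hP.res_mono p a z hpa
        rwa [h1] at this
      · have h2 : (v a).Over z := RN_over_mono hP _ _ _ (fun n p => hsv2 (v a) n p)
          (subset_union_right.trans (subset_biUnion_of_mem (u := fun a => sa a ∪ sv (v a)) ha))
        exact (h2 n p).1 hpv
    refine ⟨⟨fun n => RN_hul (B n), fun n => RN_hul_reg (B n),
      z, hzc, fun n p => RN_hul_over hP (B n) (hBd n) z (hBz n) p⟩, ?_⟩
    intro a ha q hq n
    constructor
    · intro h
      rw [(v a).reg n q]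
      intro q' hq'
      obtain ⟨r, hr, a', ha', hra', hrv⟩ := h q' hq'
      have haa : a' = a := by
        by_contra hne
        exact hinc a' ha' a ha hne ⟨r, hra', (hr.trans hq').trans hq⟩
      rw [haa] at hrv
      exact ⟨r, hr, hrv⟩
    · intro h q' hq'
      exact ⟨q', le_rfl, a, ha, hq'.trans hq, RN_down ((v a).reg n) h hq'⟩
  · intro X hX
    choose sa hsa1 _ hsa3 using hP.fin_supp
    set z : Set (Idx Q) := ⋃ n, ⋃ a ∈ X n, sa a with hz
    have hzc : z.Countable :=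
      Set.countable_iUnion fun n => (hX n).biUnion fun a _ => (hsa1 a).countable
    set B : ℕ → Set (P0 Q) := fun n => {r | ∃ a ∈ X n, r ≤ a} with hB
    have hBd : ∀ n, ∀ p ∈ B n, ∀ q ≤ p, q ∈ B n := by
      rintro n p ⟨a, ha, hpa⟩ q hq
      exact ⟨a, ha, hq.trans hpa⟩
    have hBz : ∀ n, ∀ p ∈ B n, p.res z ∈ B n := by
      rintro n p ⟨a, ha, hpa⟩
      refine ⟨a, ha, ?_⟩
      have h1 : a.res z = a := hP.res_eq_of a (sa a) z (hsa3 a)
        ((subset_biUnion_of_mem (u := fun a => sa a) ha).trans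
          (subset_iUnion (fun n => ⋃ a ∈ X n, sa a) n))
      have := hP.res_mono p a z hpa
      rwa [h1] at this
    refine ⟨⟨fun n => RN_hul (B n), fun n => RN_hul_reg (B n),
      z, hzc, fun n p => RN_hul_over hP (B n) (hBd n) z (hBz n) p⟩, fun n p => Iff.rfl⟩
  · intro Z hZ
    obtain ⟨ξ, -⟩ := Q.lev_bdd ∅ Set.countable_empty
    have hc : (2 : Cardinal.{0}) ^ (ℵ₀ : Cardinal.{0}) ≤ Q.κ ξ := Q.cont_le ξ
    have h0 : (ℵ₀ : Cardinal.{0}) ≤ Q.κ ξ := (Cardinal.cantor ℵ₀).le.trans hc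
    have hK := Q.κ_le_K ξ
    apply RN_card hP Z Q.K (h0.trans hK) (hc.trans hK) _ hZ
    calc Q.K ^ (ℵ₀ : Cardinal.{0}) ≤ Q.K ^ Q.κ ξ := by
          apply Cardinal.power_le_power_left _ h0
          have : (0 : Cardinal.{0}) < Q.K :=
            (Cardinal.aleph0_pos).trans_le (h0.trans hK)
          exact this.ne'
      _ = Q.K := Q.K_pow ξ
  · intro ζ Z hZ
    have hc : (2 : Cardinal.{0}) ^ (ℵ₀ : Cardinal.{0}) ≤ Q.κ ζ := Q.cont_le ζ
    have h0 : (ℵ₀ : Cardinal.{0}) ≤ Q.κ ζ := (Cardinal.cantor ℵ₀).le.trans hc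
    exact RN_card hP Z (Q.κ ζ) h0 hc (Q.κ_omega ζ).le hZ

end Pool.Agent.Helper46.SP
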