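import Pool.Agent.Helper54.SP.StmtsW

set_option autoImplicit false

/-! Keys of the layers: polynomial time. -/

namespace Pool.Agent.Helper54.SP

open Finset Pool.Agent.Helper54.Poly

theorem er_ite {α β : Type} [TEnc α] [TEnc β] (c : α → Prop) [DecidablePred c] {f g : α → β}
    (hc : PT (fun a => decide (c a))) (hf : PT f) (hg : PT g) :
    PT (fun a => if c a then f a else g a) := by
  refine (PT.ite hc hf hg).congr fun a => ?_
  by_cases h : c a
  · simp [h]
  · simp [h]

theorem er_eqc {α : Type} [TEnc α] {f : α → ℕ} (hf : PT f) (n : ℕ) :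
    PT (fun a => decide (f a = n)) := PT.eqN hf (PT.const n)

theorem er_ltN {α : Type} [TEnc α] {f g : α → ℕ} (hf : PT f) (hg : PT g) :
    PT (fun a => decide (f a < g a)) := PT.leN (PT.succ hf) hg

theorem er_count {α : Type} [TEnc α] {Γ : α → List Gt} (hΓ : PT Γ) :
    PT (fun a => (Γ a).countP fun g => g.1) := by
  have h1 : PT (fun y : α × Gt => if y.2.1 then [()] else []) :=
    PT.ite (PT.id.snd.fst) (PT.const [()]) (PT.const [])
  refine (PT.length (PT.flatMap h1 hΓ)).congr fun a => ?_
  generalize Γ a = l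
  induction l with
  | nil => rfl
  | cons g l ih =>
    rw [List.flatMap_cons, List.length_append, ih, List.countP_cons]
    cases g.1 <;> simp [add_comm]

theorem er_BG {α : Type} [TEnc α] {Γ : α → List Gt} {nw : α → ℕ} (hΓ : PT Γ) (hn : PT nw) :
    PT (fun a => BG (Γ a) (nw a)) := by
  unfold BG
  have hl := PT.length hΓ
  exact PT.add (PT.add (PT.const 100) (PT.mul (PT.const 16) hl))
    (PT.mul (PT.mul (PT.const 2) hl) (PT.succ hn))

theorem st_ER (h1 : ST_EK) : ST_ER := by
  intro c α _ Γ nw p hΓ hn hp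
  obtain ⟨e1, e2, e3, e4, e5, e6, e7, e8⟩ := h1 Γ p hΓ hp
  have hB := er_BG hΓ hn
  have hrk : PT (fun a => rk (Γ a) (nw a) c (p a)) := by
    unfold rk
    by_cases c1 : c = 1
    · simp only [if_pos c1]
      exact er_ite _ (er_eqc hp 1) (PT.const 0) (er_ite _ (er_eqc hp 0) hB
        (PT.add (PT.const 1) e6))
    · by_cases c2 : c = 2
      · simp only [if_neg c1, if_pos c2]
        refine er_ite _ (er_eqc hp 3) (PT.const 0) (er_ite _ (er_eqc hp 2)
          (PT.add (PT.const 1) (PT.mul (PT.const 8) (er_count hΓ))) (er_ite _ (er_eqc hp 0) hB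
          (er_ite _ (er_eqc hp 1) (PT.succ hB) ?_)))
        exact PT.ite e3.fst (PT.add (PT.const 1) e7) (PT.add (PT.const 2) e7)
      · simp only [if_neg c1, if_neg c2]
        exact er_ite _ (er_eqc hp 0) (PT.const 0) (er_ite _ (er_eqc hp 1) hB
          (PT.add (PT.const 1) e5))
  unfold rho
  exact er_ite _ (er_ltN hp e8) (PT.add (PT.const c) hrk)
    (er_ite _ (PT.eqN hp (PT.add e8 (PT.const c))) (PT.add (PT.add (PT.const c) hB) (PT.const 5))
      (PT.sub hp e8))

end Pool.Agent.Helper54.SP
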